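import Pool.Agent.R426.QD.Mn
import Pool.Agent.R426.QK.Fin

/-!
# The 2-part of the conjecture of Birch and Swinnerton-Dyer for the quadratic twists of `X_0(49)` over
# `ℚ(√-7)` that are unramified at `2` and at `√-7`: exact criterion and exact proportion

`K` is a number field of degree two with an integer `a` such that `a² = a - 2` (so `K = ℚ(√-7)` and
`√-7 = 2 a - 1`), `D` is any squarefree integer of `K` that is congruent to `1` modulo `4` and prime to
`√-7`, and `E_D : y² + x y = x³ - (3 D + 1) / 4 x² - 2 D² x - D³` is the quadratic twist by `D` of the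
curve `y² + x y = x³ - x² - 2 x - 1` of conductor `49`. Let `S` be the set of the prime divisors
`p ≡ 1` modulo `a²` of `D`, so that `D = ∏ p` (`p ∈ S`), and let
`z = L(E_D/K, 1) √|disc K| #E_D(K)_tors² / (Ω ∏ c_v)`, which is zero or the order of `Ш(E_D/K)`
according to the conjecture. With no hypothesis on the rank or on `Ш` we prove:
* `L(E_D/K, s)` is entire, the equation of `E_D` is minimal at all the finite places,
  `∏ c_v = 4 ^ (#S + 1)`, and the order of the torsion subgroup is four times an odd number;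
* `z` is integral at all the valuations of `ℂ` above two, and it is a unit at one of them iff it is so
  at all of them iff the group `E_D(K)` is finite and `Ш(E_D/K)[2]` is zero iff the matrix `mat a S` over
  `𝔽₂` of the quadratic residue symbols is not singular (the implication from algebra to analysis is a
  2-converse theorem, that from analysis to algebra is the 2-part of the formula);
* in this case `E_D(K)` is finite, the 2-primary part of `Ш(E_D/K)` is zero and `L(E_D/K, 1) ≠ 0`, so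
  that the 2-part of the conjecture holds for `E_D`;
* this is the case for a proportion of exactly `c2 = ∏_{i ≥ 1} (1 - 2^(-i)) = 0.288...` of the `D`,
  ordered by the norm, and for at least `δ X` of the `D` of norm at most `X`, for a constant `δ > 0`: a
  positive proportion of all the quadratic twists over `K`.

Proof: the central values come from the library of helper698 on the values of the elliptic functions of
the curve at the division points, extended in `Pool/Agent/R426/QC` to the primes `≡ 1` modulo `4` of `K`;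
there one finds also the Euler product over the places of `K`, minimality, Tamagawa numbers, torsion, the
period lattice, and the cohomology classes of order two that are everywhere locally trivial. In
`Pool/Agent/R426/QD` we treat all the primes: `-1` is not a square modulo half of them, the symbols are no
longer symmetric, and the sums over the division points that appear in the induction are those of the
weight one Eisenstein-Kronecker numbers at all the points of odd order.

The proportion is computed in `Pool/Agent/R426/QK`: quadratic reciprocity in `K`, bilinear sums of the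
quadratic residue symbols over `K` (a large sieve by repeated use of the inequality of Cauchy-Schwarz),
mean values of multiplicative functions twisted by the real characters, a decomposition of the elements
`D` of norm at most `X` into boxes in which the symbols of the large primes are equidistributed, and the
moments of the number of the elements of the kernel of a random matrix over `𝔽₂` whose sum with its
transpose has rank at most one off the diagonal.
-/

set_option autoImplicit false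

namespace Pool.Agent.Results.MP_e996df_nt.TwoPartTwistsX49

open NumberField IsDedekindDomain
open Pool.Agent.TH841.NF.D (Sha)

/-- The quadratic twist by `D` of the curve `y² + x y = x³ - x² - 2 x - 1` of conductor `49`. -/
noncomputable def curve {K : Type} [Field K] (D : K) : WeierstrassCurve K :=
  ⟨1, -(3 * D + 1) / 4, 0, -2 * D ^ 2, -D ^ 3⟩

open scoped Classical in
/-- The equation `E` is minimal at every finite place `v`, and `c v` is the Tamagawa number of `E` at
`v`: the index in `E(K_v)` of the subgroup of the points of nonsingular reduction. -/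
def IsTamagawa {K : Type} [Field K] [NumberField K] (E : WeierstrassCurve K)
    (c : HeightOneSpectrum (𝓞 K) → ℕ) : Prop :=
  (∀ v : HeightOneSpectrum (𝓞 K),
    (E.baseChange (v.adicCompletion K)).IsMinimal (v.adicCompletionIntegers K) ∧
    ∃ H : AddSubgroup (E.baseChange (v.adicCompletion K)).toAffine.Point,
      (∀ P, P ∈ H ↔ Pool.Agent.Y696.NonsingRed Valued.v (E.baseChange (v.adicCompletion K)) P) ∧
      H.index = c v) ∧
  {v | c v ≠ 1}.Finite

/-- `Λ` is the lattice of periods of the differential `dx / (2y + a₁x + a₃)` of the curve `E`, embedded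
in the complex numbers by `σ`. -/
def IsPeriodLattice {K : Type} [Field K] (E : WeierstrassCurve K) (σ : K →+* ℂ)
    (Λ : PeriodPair) : Prop :=
  Λ.g₂ = σ E.c₄ / 12 ∧ Λ.g₃ = σ E.c₆ / 216

/-- Twice the area of a fundamental parallelogram of the lattice. -/
noncomputable def period (Λ : PeriodPair) : ℝ := 2 * |((starRingEnd ℂ) Λ.ω₁ * Λ.ω₂).im|

open Classical in
/-- The order of the torsion subgroup of `E(K)`. -/
noncomputable def torsOrder {K : Type} [Field K] (E : WeierstrassCurve K) : ℕ :=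
  Nat.card (AddCommGroup.torsion E.toAffine.Point)

/-- The order of the Tate-Shafarevich group predicted by the formula in rank zero, for the value `l` of
the L-function at `s = 1`: `l √|disc K| #E(K)_tors² / (Ω ∏ c_v)`. -/
noncomputable def anOrder {K : Type} [Field K] [NumberField K] (E : WeierstrassCurve K) (l : ℂ)
    (Λ : PeriodPair) (c : HeightOneSpectrum (𝓞 K) → ℕ) : ℂ :=
  l * (Real.sqrt |(discr K : ℝ)| : ℝ) * (torsOrder E : ℂ) ^ 2 /
    ((period Λ : ℂ) * ((∏ᶠ v, c v : ℕ) : ℂ))

/-- `L` is an entire continuation of the L-series of `E`. -/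
def IsL {K : Type} [Field K] [NumberField K] (E : WeierstrassCurve K) (L : ℂ → ℂ) : Prop :=
  Differentiable ℂ L ∧ ∀ s : ℂ, 3 / 2 < s.re →
    LSeriesSummable ((fun n : ℤ => (n : ℂ)) ∘ E.LFunction) s ∧ L s = E.LSeries s

open Classical in
/-- `0` if `x` is a square modulo `p`, and `1` if it is not. -/
noncomputable def nonsq {R : Type} [CommRing R] (x p : R) : ZMod 2 :=
  if ∃ b : R, p ∣ b ^ 2 - x then 0 else 1

open Classical in
/-- The matrix over the field with two elements, with rows and columns indexed by the set `S` of prime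
elements: the entry at `(p, q)` is `nonsq p q` for `p ≠ q`, and the entry at `(p, p)` is the sum of
`nonsq p √-7` and of the `nonsq p q` for the `q ≠ p` in `S`. -/
noncomputable def mat {K : Type} [Field K] (a : 𝓞 K) (S : Finset (𝓞 K)) : Matrix S S (ZMod 2) :=
  Matrix.of fun p q => if q = p then
    nonsq (p : 𝓞 K) (2 * a - 1) + ∑ r ∈ S.erase (p : 𝓞 K), nonsq (p : 𝓞 K) r
    else nonsq (p : 𝓞 K) q

/-- The 2-part of the conjecture of Birch and Swinnerton-Dyer for a curve `E` over an imaginary quadratic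
field `K`, in the case that the predicted order of `Ш` is a unit above two: `E(K)` is finite, the
2-primary part of `Ш(E/K)` is trivial, `L(E/K, s)` is entire, `L(E/K, 1) ≠ 0`, and the predicted order of
`Ш(E/K)` is a unit at every valuation `w` of the field of complex numbers with `w 2 < 1`. -/
def TwoPart {K : Type} [Field K] [NumberField K] (E : WeierstrassCurve K) : Prop :=
  Finite E.toAffine.Point ∧ (∀ (n : ℕ) (x : Sha E), 2 ^ n • x = 0 → x = 0) ∧
  ∃ (L : ℂ → ℂ) (c : HeightOneSpectrum (𝓞 K) → ℕ), IsL E L ∧ L 1 ≠ 0 ∧ IsTamagawa E c ∧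
    ∀ σ : K →+* ℂ, (∃ Λ : PeriodPair, IsPeriodLattice E σ Λ) ∧
      ∀ Λ : PeriodPair, IsPeriodLattice E σ Λ →
        ∀ (Γ : Type) [LinearOrderedCommGroupWithZero Γ] (w : Valuation ℂ Γ), w 2 < 1 →
          w (anOrder E (L 1) Λ c) = 1

/-- The group `E(K)` is finite and `Ш(E/K)` has no element of order two. -/
def NoSelmer {K : Type} [Field K] [NumberField K] (E : WeierstrassCurve K) : Prop :=
  Finite E.toAffine.Point ∧ ∀ x : Sha E, 2 • x = 0 → x = 0

open scoped Classical in
/-- The statement for the twist `E` by the product of the prime elements in `S`. -/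
def Criterion {K : Type} [Field K] [NumberField K] (a : 𝓞 K) (S : Finset (𝓞 K))
    (E : WeierstrassCurve K) : Prop :=
  (∃ (L : ℂ → ℂ) (c : HeightOneSpectrum (𝓞 K) → ℕ), IsL E L ∧
    IsTamagawa E c ∧ ∏ᶠ v, c v = 4 ^ (S.card + 1) ∧
    (∃ t : ℕ, Odd t ∧ torsOrder E = 4 * t) ∧
    ∀ σ : K →+* ℂ, (∃ Λ : PeriodPair, IsPeriodLattice E σ Λ) ∧
      ∀ Λ : PeriodPair, IsPeriodLattice E σ Λ →
        ∀ (Γ : Type) [LinearOrderedCommGroupWithZero Γ] (w : Valuation ℂ Γ), w 2 < 1 →
          w (anOrder E (L 1) Λ c) ≤ 1 ∧ (w (anOrder E (L 1) Λ c) = 1 ↔ NoSelmer E)) ∧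
  (NoSelmer E ↔ (mat a S).det ≠ 0) ∧
  ((mat a S).det ≠ 0 → TwoPart E)

/-- The squarefree integers `D` of `K`, congruent to `1` modulo `4` and prime to `√-7 = 2 a - 1`, whose
norm has absolute value at most `X`. -/
def family {K : Type} [Field K] [NumberField K] (a : 𝓞 K) (X : ℕ) : Set (𝓞 K) :=
  {D | Ideal.absNorm (Ideal.span {D}) ≤ X ∧ Squarefree D ∧ (4 : 𝓞 K) ∣ D - 1 ∧ ¬ (2 * a - 1) ∣ D}

/-- The elements `D` of the family for which the 2-part of the conjecture holds in the form `TwoPart`. -/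
def goodSet {K : Type} [Field K] [NumberField K] (a : 𝓞 K) (X : ℕ) : Set (𝓞 K) :=
  {D ∈ family a X | TwoPart (curve (D : K))}

/-- The product `(1 - 1/2) (1 - 1/4) (1 - 1/8) ⋯`. -/
noncomputable def c2 : ℝ := ∏' i : ℕ, (1 - (1 / 2 : ℝ) ^ (i + 1))

section proof

open Pool.Agent.R426
open Pool.Agent.R426.QC
open Pool.Agent.Y698 Pool.Agent.Y698.SG

lemma EX_c₆ {k : Type} [CommRing k] (j : k) : (EX k j).c₆ = 1323 * (1 + 4 * j) ^ 3 := by
  unfold EX WeierstrassCurve.c₆ WeierstrassCurve.b₄ WeierstrassCurve.b₂ WeierstrassCurve.b₆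
  ring

/-- The criterion. -/
theorem criterion {K : Type} [Field K] [NumberField K] {a : 𝓞 K} (ha : a ^ 2 = a - 2)
    (hK : Module.finrank ℚ K = 2) {D : 𝓞 K} (h4 : (4 : 𝓞 K) ∣ D - 1) (hDsq : Squarefree D)
    (h7 : ¬ (2 * a - 1) ∣ D) :
    ∃ S : Finset (𝓞 K), (∀ p, p ∈ S ↔ Prime p ∧ p ∣ D ∧ a ^ 2 ∣ p - 1) ∧ ∏ p ∈ S, p = D ∧
      Criterion a S (curve (D : K)) := by
  classical
  have haK : (a : K) ^ 2 = (a : K) - 2 := by
    have := congrArg (algebraMap (𝓞 K) K) ha
    rwa [map_pow, map_sub, map_ofNat] at this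
  obtain ⟨e, he⟩ := exists_iso haK hK
  have hea : e aR = a := by
    apply FaithfulSMul.algebraMap_injective (𝓞 K) K
    rw [he, ev_aR]
  have hef : e fR = 2 * a - 1 := by
    unfold fR
    rw [map_sub, map_mul, map_ofNat, map_one, hea]
  obtain ⟨S, hSp, hSD, hE⟩ := QD.exists_S e hea h4 hDsq h7
  refine ⟨S, hSp, hSD, ?_⟩
  rw [← hSD]
  obtain ⟨J, hJ⟩ := hE.m4
  have hsq := hE.sqf7
  have hmat : gd (mc (QC.pe e)) (mr (QC.pe e)) S = (mat a S).det := QD.mat_gdD e hef hE
  obtain ⟨F, hF1, hF2, hF3⟩ := QD.val_zD hE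
  set π : 𝓞 K → RR := QC.pe e with hπd
  have hDem : em e (∏ p ∈ S, π p) = ((∏ p ∈ S, p : 𝓞 K) : K) := by
    show algebraMap (𝓞 K) K (e (∏ p ∈ S, e.symm p)) = _
    rw [← map_prod, e.apply_symm_apply]
  have hDj : ((∏ p ∈ S, p : 𝓞 K) : K) = 1 + 4 * em e J := by
    rw [← hDem, hJ, map_add, map_mul, map_one, map_ofNat]
  have hcur : curve ((∏ p ∈ S, p : 𝓞 K) : K) = EX K (em e J) := by
    unfold curve EX
    rw [hDj]
    congr 1
    field_simp
    ring
  rw [hcur]
  have hD0 : (1 + 4 * em e J : K) ≠ 0 := by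
    rw [← hDj, ← hDem]
    exact em_ne e hE.sqf.ne_zero
  obtain ⟨t, ht, htor⟩ := torE e hsq hJ
  obtain ⟨hcf, hcp⟩ := QD.cE_prodD e hE
  set L : ℂ → ℂ := fun s => F s * (starRingEnd ℂ) (F ((starRingEnd ℂ) s)) with hL
  have hL1 : L 1 = F 1 * (starRingEnd ℂ) (F 1) := by
    simp only [hL, map_one]
  have htor' : torsOrder (EX K (em e J)) = 4 * t := htor
  have hIsL : IsL (EX K (em e J)) L :=
    ⟨hF1.mul (Pool.Agent.Y697.MQ.diff_conj hF1), fun s hs => QD.lserD e hE hJ hF2 hs⟩
  have hTam : IsTamagawa (EX K (em e J)) (cE e (∏ p ∈ S, π p)) :=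
    ⟨fun v => ⟨minE e hsq hJ v, tamE e hsq hJ v⟩, hcf⟩
  have hper : ∀ σ : K →+* ℂ, (∃ Λ : PeriodPair, IsPeriodLattice (EX K (em e J)) σ Λ) ∧
      ∀ Λ : PeriodPair, IsPeriodLattice (EX K (em e J)) σ Λ →
        ∀ (Γ : Type) [LinearOrderedCommGroupWithZero Γ] (w : Valuation ℂ Γ), w 2 < 1 →
          w (anOrder (EX K (em e J)) (L 1) Λ (cE e (∏ p ∈ S, π p))) ≤ 1 ∧
          (w (anOrder (EX K (em e J)) (L 1) Λ (cE e (∏ p ∈ S, π p))) = 1 ↔
            (mat a S).det ≠ 0) := by
    intro σ
    have h4 : σ (EX K (em e J)).c₄ / 12 = 35 / 4 * (σ (1 + 4 * em e J)) ^ 2 := by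
      rw [EX_c₄, map_mul, map_pow, map_ofNat]
      ring
    have h6 : σ (EX K (em e J)).c₆ / 216 = 49 / 8 * (σ (1 + 4 * em e J)) ^ 3 := by
      rw [EX_c₆, map_mul, map_pow, map_ofNat]
      ring
    have hδ : ‖σ (1 + 4 * em e J)‖ = ‖((∏ p ∈ S, π p : RR) : ℂ)‖ := by
      rw [← hDj, ← hDem]
      exact norm_em e σ _
    have hσ0 : σ (1 + 4 * em e J) ≠ 0 := (map_ne_zero σ).2 hD0
    refine ⟨?_, fun Λ hΛ Γ _ w hw => ?_⟩
    · obtain ⟨Λ, h8, h9⟩ := per7_ex hσ0
      exact ⟨Λ, by rw [h4]; exact h8, by rw [h6]; exact h9⟩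
    · have h10 := hF3 hδ (hΛ.1.trans h4) (hΛ.2.trans h6) ht Γ w hw
      have h11 : anOrder (EX K (em e J)) (L 1) Λ (cE e (∏ p ∈ S, π p)) =
          zq (F 1) t Λ S.card := by
        unfold anOrder period zq
        rw [sqrt_discr7 e, htor', hcp, hL1]
        push_cast
        rfl
      rw [h11, ← hmat]
      exact h10
  have hmain : (mat a S).det ≠ 0 → TwoPart (EX K (em e J)) := by
    intro hdet
    obtain ⟨hfin, hsha⟩ := QD.sha_rankD e hE (by rw [hmat]; exact hdet) hJ
    have hper2 : ∀ σ : K →+* ℂ, (∃ Λ : PeriodPair, IsPeriodLattice (EX K (em e J)) σ Λ) ∧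
        ∀ Λ : PeriodPair, IsPeriodLattice (EX K (em e J)) σ Λ →
          ∀ (Γ : Type) [LinearOrderedCommGroupWithZero Γ] (w : Valuation ℂ Γ), w 2 < 1 →
            w (anOrder (EX K (em e J)) (L 1) Λ (cE e (∏ p ∈ S, π p))) = 1 := fun σ =>
      ⟨(hper σ).1, fun Λ hΛ Γ _ w hw => ((hper σ).2 Λ hΛ Γ w hw).2.2 hdet⟩
    have hL10 : L 1 ≠ 0 := by
      intro h0
      obtain ⟨B, hB⟩ := Pool.Agent.Y697.MQ.exists_val
      obtain ⟨σ⟩ : Nonempty (K →+* ℂ) := inferInstance
      obtain ⟨⟨Λ, hΛ⟩, h2⟩ := hper2 σ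
      have h3 := h2 Λ hΛ _ B.valuation hB
      unfold anOrder at h3
      rw [h0, zero_mul, zero_mul, zero_div, map_zero] at h3
      exact zero_ne_one h3
    have hpow : ∀ (n : ℕ) (x : Sha (EX K (em e J))), 2 ^ n • x = 0 → x = 0 := by
      intro n
      induction n with
      | zero => intro x hx; rwa [pow_zero, one_smul] at hx
      | succ n ih =>
        intro x hx
        apply hsha
        apply ih
        rw [← mul_smul, ← pow_succ]
        exact hx
    exact ⟨hfin, hpow, L, cE e (∏ p ∈ S, π p), hIsL, hL10, hTam, hper2⟩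
  have hconv : NoSelmer (EX K (em e J)) → (mat a S).det ≠ 0 := by
    rintro ⟨h1, h2⟩ h3
    exact QD.convD e hE (hmat.trans h3) hJ h1 h2
  have hiff : NoSelmer (EX K (em e J)) ↔ (mat a S).det ≠ 0 :=
    ⟨hconv, fun h => QD.sha_rankD e hE (by rw [hmat]; exact h) hJ⟩
  exact ⟨⟨L, cE e (∏ p ∈ S, π p), hIsL, hTam, hcp, ⟨t, ht, htor'⟩, fun σ => ⟨(hper σ).1,
    fun Λ hΛ Γ _ w hw => ⟨((hper σ).2 Λ hΛ Γ w hw).1,
      ((hper σ).2 Λ hΛ Γ w hw).2.trans hiff.symm⟩⟩⟩, hiff, hmain⟩

lemma TwoPart.noSelmer {K : Type} [Field K] [NumberField K] {E : WeierstrassCurve K}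
    (h : TwoPart E) : NoSelmer E :=
  ⟨h.1, fun x hx => h.2.1 1 x (by rw [pow_one]; exact hx)⟩

open scoped Classical in
lemma Criterion.iff {K : Type} [Field K] [NumberField K] {a : 𝓞 K} {S : Finset (𝓞 K)}
    {E : WeierstrassCurve K} (h : Criterion a S E) : TwoPart E ↔ (mat a S).det ≠ 0 :=
  ⟨fun h1 => h.2.1.1 h1.noSelmer, h.2.2⟩

section density

open Filter

lemma sqf_e {K : Type} [Field K] (e : RR ≃+* 𝓞 K) (x : RR) : Squarefree (e x) ↔ Squarefree x := by
  constructor
  · intro h y hy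
    have h1 : e y * e y ∣ e x := by
      rw [← map_mul, map_dvd_iff e]
      exact hy
    exact (isUnit_map_iff e y).1 (h _ h1)
  · intro h y hy
    have h1 : e.symm y * e.symm y ∣ x := by
      rw [← map_mul, ← map_dvd_iff e, e.apply_symm_apply]
      exact hy
    have h2 := h _ h1
    have h3 := (isUnit_map_iff e (e.symm y)).2 h2
    rwa [e.apply_symm_apply] at h3

variable {K : Type} [Field K] [NumberField K]

lemma cls_e (e : RR ≃+* 𝓞 K) {a : 𝓞 K} (hef : e fR = 2 * a - 1) (x : RR) :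
    (Squarefree (e x) ∧ (4 : 𝓞 K) ∣ e x - 1 ∧ ¬ (2 * a - 1) ∣ e x) ↔ QK.ClsE x := by
  unfold QK.ClsE
  have h2 : (4 : 𝓞 K) ∣ e x - 1 ↔ (4 : RR) ∣ x - 1 := by
    rw [← map_dvd_iff e (a := (4 : RR)), map_sub, map_one, map_ofNat]
  have h3 : (2 * a - 1) ∣ e x ↔ fR ∣ x := by
    rw [← hef, map_dvd_iff e]
  rw [sqf_e e x, h2, h3]

lemma good_e (e : RR ≃+* 𝓞 K) {a : 𝓞 K} (ha : a ^ 2 = a - 2) (hK : Module.finrank ℚ K = 2)
    (hea : e aR = a) (hef : e fR = 2 * a - 1) (x : RR) :
    ((Squarefree (e x) ∧ (4 : 𝓞 K) ∣ e x - 1 ∧ ¬ (2 * a - 1) ∣ e x) ∧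
      TwoPart (curve (((e x : 𝓞 K)) : K))) ↔ QK.GoodE x := by
  classical
  unfold QK.GoodE
  rw [cls_e e hef]
  refine and_congr_right fun hx => ?_
  obtain ⟨h1, h4, h7⟩ := (cls_e e hef x).2 hx
  obtain ⟨S, hSp, hSD, hC⟩ := criterion ha hK h4 h1 h7
  obtain ⟨S', hSp', hSD', hE⟩ := QD.exists_S e hea h4 h1 h7
  have hSS : S' = S := by
    ext p
    rw [hSp, hSp']
  rw [hSS] at hE
  rw [hC.iff]
  have hmat : gd (mc (QC.pe e)) (mr (QC.pe e)) S = (mat a S).det := QD.mat_gdD e hef hE
  rw [← hmat, QD.mat_gdD e hef hE]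
  exact QK.det_iff e hea hef hx hSp hE

/-- the isomorphism with the ring of the library -/
lemma exists_e {a : 𝓞 K} (ha : a ^ 2 = a - 2) (hK : Module.finrank ℚ K = 2) :
    ∃ e : RR ≃+* 𝓞 K, e aR = a ∧ e fR = 2 * a - 1 := by
  have haK : (a : K) ^ 2 = (a : K) - 2 := by
    have := congrArg (algebraMap (𝓞 K) K) ha
    rwa [map_pow, map_sub, map_ofNat] at this
  obtain ⟨e, he⟩ := exists_iso haK hK
  have hea : e aR = a := by
    apply FaithfulSMul.algebraMap_injective (𝓞 K) K
    rw [he, ev_aR]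
  refine ⟨e, hea, ?_⟩
  unfold fR
  rw [map_sub, map_mul, map_ofNat, map_one, hea]

lemma ncard_family (e : RR ≃+* 𝓞 K) {a : 𝓞 K} (hef : e fR = 2 * a - 1) (X : ℕ) :
    (family a X).ncard = {x : RR | QK.nrm x ≤ X ∧ QK.ClsE x}.ncard :=
  QK.ncard_e e X _ _ fun x => cls_e e hef x

lemma ncard_good (e : RR ≃+* 𝓞 K) {a : 𝓞 K} (ha : a ^ 2 = a - 2) (hK : Module.finrank ℚ K = 2)
    (hea : e aR = a) (hef : e fR = 2 * a - 1) (X : ℕ) :
    (goodSet a X).ncard = {x : RR | QK.nrm x ≤ X ∧ QK.GoodE x}.ncard := by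
  rw [← QK.ncard_e e X (fun D : 𝓞 K => (Squarefree D ∧ (4 : 𝓞 K) ∣ D - 1 ∧ ¬ (2 * a - 1) ∣ D) ∧
      TwoPart (curve (D : K))) _ fun x => good_e e ha hK hea hef x]
  congr 1
  ext D
  unfold goodSet family
  simp only [Set.mem_ofPred_eq]
  tauto

/-- The proportion. -/
theorem proportion {a : 𝓞 K} (ha : a ^ 2 = a - 2) (hK : Module.finrank ℚ K = 2) :
    Tendsto (fun X : ℕ => ((goodSet a X).ncard : ℝ) / ((family a X).ncard : ℝ)) atTop (nhds c2) ∧
      ∃ δ : ℝ, 0 < δ ∧ ∀ᶠ X : ℕ in atTop, δ * X ≤ ((goodSet a X).ncard : ℝ) := by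
  obtain ⟨e, hea, hef⟩ := exists_e ha hK
  constructor
  · have h1 := QK.t_DEN
    unfold QK.S_DEN at h1
    refine h1.congr fun X => ?_
    rw [ncard_family e hef, ncard_good e ha hK hea hef]
  · obtain ⟨δ, X₀, hδ, h1⟩ := QK.good_low
    refine ⟨δ, hδ, ?_⟩
    filter_upwards [eventually_ge_atTop X₀] with X hX
    rw [ncard_good e ha hK hea hef]
    exact h1 X hX

end density

end proof

/-- **Main theorem.** Let `K = ℚ(√-7)`, that is, a number field of degree two with an integer `a` such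
that `a² = a - 2`.
(1) Let `D` be a squarefree integer of `K`, congruent to `1` modulo `4` and prime to `√-7 = 2 a - 1`, and
let `S` be the set of the prime divisors of `D` that are congruent to `1` modulo `a²`. Then `D = ∏ p`
(`p ∈ S`), and the statement `Criterion` holds for the quadratic twist by `D` of the curve of conductor
`49`; in particular the 2-part of the conjecture, in the form `TwoPart`, holds for this twist if and only
if the matrix `mat a S` is not singular.
(2) The proportion of the `D` with `TwoPart` among the `D` of norm at most `X` tends to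
`c2 = ∏_{i ≥ 1} (1 - 2^(-i))` as `X` tends to infinity, and `0.288 < c2 < 0.289`.
(3) The number of these `D` is at least `δ X`, for a positive constant `δ`, for all large `X`. -/
theorem result (K : Type) [Field K] [NumberField K] (a : 𝓞 K) (ha : a ^ 2 = a - 2)
    (hK : Module.finrank ℚ K = 2) :
    (∀ D : 𝓞 K, (4 : 𝓞 K) ∣ D - 1 → Squarefree D → ¬ (2 * a - 1) ∣ D →
      ∃ S : Finset (𝓞 K), (∀ p, p ∈ S ↔ Prime p ∧ p ∣ D ∧ a ^ 2 ∣ p - 1) ∧ ∏ p ∈ S, p = D ∧
        Criterion a S (curve (D : K))) ∧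
    Filter.Tendsto (fun X : ℕ => ((goodSet a X).ncard : ℝ) / ((family a X).ncard : ℝ))
      Filter.atTop (nhds c2) ∧ 0.288 < c2 ∧ c2 < 0.289 ∧
    ∃ δ : ℝ, 0 < δ ∧ ∀ᶠ X : ℕ in Filter.atTop, δ * X ≤ ((goodSet a X).ncard : ℝ) := by
  obtain ⟨-, -, -, h3, h4⟩ := Pool.Agent.R426.QK.MOM.t_C2
  obtain ⟨h1, h2⟩ := proportion ha hK
  exact ⟨fun D h5 h6 h7 => criterion ha hK h5 h6 h7, h1, h3, h4, h2⟩

end Pool.Agent.Results.MP_e996df_nt.TwoPartTwistsX49
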