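import Pool.Agent.R432.C7
import Pool.Agent.Y696.XL.Up

/-!
# Cubic twists over the fields `ℚ(ω, ∛l₁, …, ∛lₙ)`: rank zero and the 3-primary part of the
Tate-Shafarevich group, for exactly 63.9 percent of the curves

`K` is the field of the third roots of unity, `E_D : y² + D y = x³`, and `D` runs through the
squarefree `D = 1` modulo `3` of `𝓞 K` whose norm is not `1` modulo `9`.  A finite set `S` of primes
`l = 1` modulo `3`, of norm `1` modulo `9` and not dividing `D`, is called admissible if modulo each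
`l ∈ S` all the elements of `S` and all the prime factors of `D` but exactly one are cubes.  We prove
that for a proportion of the `D` that tends exactly to `∏_{i ≥ 0} (1 - 3^{-(2 i + 1)}) = 0.6390...`
the following holds: every admissible set can be enlarged by infinitely many primes, and for every
admissible `S` and `F = K(∛l : l ∈ S)`, an abelian extension of `K` of degree `3 ^ #S`, the group
`E_D(F)` is finite, and the `3`-primary part of `Ш(E_D / F)` is killed by `[F : K] = 3 ^ #S`.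

The proof.  (1) For admissible `S` and integers `e_l` the Laplacian of the cubic residue symbols of the
prime factors of `D' = D ∏ l^{e_l}` has the constants as its kernel if that of `D` has this property,
as the `l` with `3 ∤ e_l` are leaves of the weighted graph of `D'`; so by the descent with the
endomorphism `√-3` of the library the group `E_{D'}(K)` is finite and `Ш(E_{D'} / K)[3^∞] = 0`.
(2) Over `F` the curves `E_{D'}` are isomorphic.  For an automorphism `g ≠ 1` of `F` over `K` the sum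
over all the `3 ^ #S` twists of the conjugates of `g` vanishes, because `1 + ω + ω² = 0` in the ring of
endomorphisms.  So the corestrictions to the twists, applied to a point or to a locally trivial
cocycle over `F`, add up to its multiple by `3 ^ #S`.  (3) Admissible primes exist by the density
theorem for `ℚ(ω, ∛π : π ∈ P)`.  (4) The exact proportion of the `D` with the property for `F = K` is
from the library.
-/

set_option autoImplicit false

namespace Pool.Agent.Results.MP_e996df_nt.CubicTowersSha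

open NumberField
open Pool.Agent.TH841.NF.D (Sha)
open scoped Classical

/-- The curve `E_D : y² + D y = x³`. -/
def curve {F : Type} [Field F] (D : F) : WeierstrassCurve F := ⟨0, 0, D, 0, 0⟩

/-- For `E_D : y² + D y = x³` over `F` the group `E_D(F)` is finite, and the `3`-primary part of the
Tate-Shafarevich group of `E_D` over `F` is killed by `N`. -/
def FiniteAndKilled {F : Type} [Field F] [NumberField F] (N : ℕ) (D : F) : Prop :=
  Finite (curve D).toAffine.Point ∧ ∀ (n : ℕ) (x : Sha (curve D)), 3 ^ n • x = 0 → N • x = 0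

variable {K : Type} [Field K] [NumberField K]

/-- `D` is squarefree and `1` modulo `3`, and its norm is not `1` modulo `9`. -/
def InClass (D : 𝓞 K) : Prop :=
  (3 : 𝓞 K) ∣ D - 1 ∧ Squarefree D ∧ ¬ (9 : ℤ) ∣ Algebra.norm ℤ D - 1

/-- `x` is a cube modulo `l`. -/
def IsCubeMod (x l : 𝓞 K) : Prop := ∃ y : 𝓞 K, l ∣ x - y ^ 3

/-- `l` is a prime element, `1` modulo `3`, of norm `1` modulo `9`, it does not divide `D`, and
exactly one of the prime elements `p = 1` modulo `3` that divide `D` is not a cube modulo `l`. -/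
def Attached (D l : 𝓞 K) : Prop :=
  Prime l ∧ (3 : 𝓞 K) ∣ l - 1 ∧ (9 : ℤ) ∣ Algebra.norm ℤ l - 1 ∧ ¬ l ∣ D ∧
    ∃! p : 𝓞 K, Prime p ∧ (3 : 𝓞 K) ∣ p - 1 ∧ p ∣ D ∧ ¬ IsCubeMod p l

/-- Each `l ∈ S` is attached to `D`, and the other elements of `S` are cubes modulo `l`. -/
def Admissible (D : 𝓞 K) (S : Finset (𝓞 K)) : Prop :=
  (∀ l ∈ S, Attached D l) ∧ ∀ l ∈ S, ∀ m ∈ S, m ≠ l → IsCubeMod m l

/-- `F = K(∛l : l ∈ S)`. -/
def Generated (S : Finset (𝓞 K)) (F : Type) [Field F] [Algebra K F] : Prop :=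
  ∃ r : 𝓞 K → F, (∀ l ∈ S, r l ^ 3 = algebraMap K F (l : K)) ∧
    ∀ L : Subfield F, (∀ k : K, algebraMap K F k ∈ L) → (∀ l ∈ S, r l ∈ L) → L = ⊤

/-- For every admissible set `S`: there are infinitely many primes `l` outside `S` such that
`S ∪ {l}` is admissible, there is a number field `F = K(∛l : l ∈ S)`, and for each such `F` the degree
`[F : K]` is `3 ^ #S`, the group `E_D(F)` is finite, and the `3`-primary part of the Tate-Shafarevich
group of `E_D` over `F` is killed by `[F : K] = 3 ^ #S`. -/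
def Towers (D : 𝓞 K) : Prop :=
  ∀ S : Finset (𝓞 K), Admissible D S →
    {l : 𝓞 K | l ∉ S ∧ Admissible D (insert l S)}.Infinite ∧
    (∃ (F : Type) (_ : Field F) (_ : NumberField F) (_ : Algebra K F), Generated S F) ∧
    ∀ (F : Type) [Field F] [NumberField F] [Algebra K F], Generated S F →
      Module.finrank K F = 3 ^ S.card ∧ FiniteAndKilled (3 ^ S.card) (algebraMap K F (D : K))

section proof

open Pool.Agent.Y692.QS (Ei w nr)
open Pool.Agent.Y715.T.Rec (cs)
open Pool.Agent.Y715.T.RecG (Pq)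
open Pool.Agent.Y703.CT (Dt pD Ker ClsE)
open Pool.Agent.Y696.CTK (ClsK Tri)
open Pool.Agent.R432.C

theorem pq_three {q : Ei} (h : Pq q) : ¬ q ∣ 3 := h.norm

theorem isCubeMod_iff (j : Ei ≃+* 𝓞 K) {x l : Ei} (hl : Pq l) (hx : ¬ l ∣ x) :
    IsCubeMod (j x) (j l) ↔ cs l x = 0 := by
  rw [Pool.Agent.Y715.T.RecG.cs_zero_iff hl.prime (pq_three hl) hx]
  constructor
  · rintro ⟨y, hy⟩
    refine ⟨j.symm y, ?_⟩
    rw [← map_dvd_iff j, map_sub, map_pow, RingEquiv.apply_symm_apply]
    exact hy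
  · rintro ⟨y, hy⟩
    refine ⟨j y, ?_⟩
    rw [← map_pow, ← map_sub, map_dvd_iff j]
    exact hy

theorem three_iff (j : Ei ≃+* 𝓞 K) (x : Ei) : (3 : 𝓞 K) ∣ j x - 1 ↔ (3 : Ei) ∣ x - 1 := by
  have : j x - 1 = j (x - 1) := by rw [map_sub, map_one]
  rw [this, ← map_ofNat j 3, map_dvd_iff j]

theorem pq_iff (j : Ei ≃+* 𝓞 K) (x : Ei) : (Prime (j x) ∧ (3 : 𝓞 K) ∣ j x - 1) ↔ Pq x := by
  rw [three_iff, MulEquiv.prime_iff j]
  exact ⟨fun h => ⟨h.1, h.2⟩, fun h => ⟨h.prime, h.three⟩⟩

variable {n : ℕ} {π : Fin (n + 1) → Ei}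

theorem pq_factor (hdt : Dt π (fun _ => 1)) {p : Ei} (hp : Pq p) :
    p ∣ pD π (fun _ => 1) ↔ ∃ i, p = π i := by
  constructor
  · intro h
    obtain ⟨i, -, hi⟩ := (hp.prime.dvd_finsetProd_iff _).1 h
    exact ⟨i, pq_dvd hp (hdt.pq i) (hp.prime.dvd_of_dvd_pow hi)⟩
  · rintro ⟨i, rfl⟩
    have h1 : (1 : ZMod 3).val ≠ 0 := by decide
    exact (dvd_pow_self (π i) h1).trans
      (Finset.dvd_prod_of_mem (fun i => π i ^ (1 : ZMod 3).val) (Finset.mem_univ i))

theorem attached_iff (j : Ei ≃+* 𝓞 K) (hj : ∀ z : Ei, Algebra.norm ℤ (j z) = nr z)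
    (hdt : Dt π (fun _ => 1)) (l : Ei) :
    Attached (j (pD π (fun _ => 1))) (j l) ↔ Pq l ∧ nr l % 9 = 1 ∧ (∀ i, l ≠ π i) ∧
      ∃ i, cs l (π i) ≠ 0 ∧ ∀ k, k ≠ i → cs l (π k) = 0 := by
  have h9 : (9 : ℤ) ∣ Algebra.norm ℤ (j l) - 1 ↔ nr l % 9 = 1 := by
    rw [hj]
    omega
  have hinj : Function.Injective π := by
    intro a b hab
    by_contra hne
    exact hdt.nd a b hne (by rw [hab])
  constructor
  · rintro ⟨h1, h2, h3, h4, p, ⟨hp1, hp2, hp3, hp4⟩, huniq⟩
    have hl := (pq_iff j l).1 ⟨h1, h2⟩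
    have hne : ∀ i, l ≠ π i := by
      intro i hi
      apply h4
      rw [map_dvd_iff j]
      exact (pq_factor hdt hl).2 ⟨i, hi⟩
    have hnd : ∀ i, ¬ l ∣ π i := fun i hd => hne i (pq_dvd hl (hdt.pq i) hd)
    obtain ⟨p', rfl⟩ := j.surjective p
    have hp' := (pq_iff j p').1 ⟨hp1, hp2⟩
    obtain ⟨i, rfl⟩ := (pq_factor hdt hp').1 ((map_dvd_iff j).1 hp3)
    refine ⟨hl, h9.1 h3, hne, i, fun h => hp4 ((isCubeMod_iff j hl (hnd i)).2 h), fun k hk => ?_⟩
    by_contra hcon
    apply hk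
    apply hinj
    apply j.injective
    apply huniq
    refine ⟨((pq_iff j _).2 (hdt.pq k)).1, ((pq_iff j _).2 (hdt.pq k)).2, ?_,
      fun h => hcon ((isCubeMod_iff j hl (hnd k)).1 h)⟩
    rw [map_dvd_iff j]
    exact (pq_factor hdt (hdt.pq k)).2 ⟨k, rfl⟩
  · rintro ⟨hl, h3, hne, i, hi, hk⟩
    have hnd : ∀ i, ¬ l ∣ π i := fun i hd => hne i (pq_dvd hl (hdt.pq i) hd)
    refine ⟨((pq_iff j _).2 hl).1, ((pq_iff j _).2 hl).2, h9.2 h3, ?_, j (π i), ⟨?_, ?_, ?_, ?_⟩, ?_⟩
    · rw [map_dvd_iff j]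
      intro h
      obtain ⟨k, h5⟩ := (pq_factor hdt hl).1 h
      exact hne k h5
    · exact ((pq_iff j _).2 (hdt.pq i)).1
    · exact ((pq_iff j _).2 (hdt.pq i)).2
    · rw [map_dvd_iff j]
      exact (pq_factor hdt (hdt.pq i)).2 ⟨i, rfl⟩
    · exact fun h => hi ((isCubeMod_iff j hl (hnd i)).1 h)
    · rintro q ⟨hq1, hq2, hq3, hq4⟩
      obtain ⟨q', rfl⟩ := j.surjective q
      have hq' := (pq_iff j q').1 ⟨hq1, hq2⟩
      obtain ⟨k, rfl⟩ := (pq_factor hdt hq').1 ((map_dvd_iff j).1 hq3)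
      by_contra hcon
      apply hq4
      rw [isCubeMod_iff j hl (hnd k)]
      exact hk k fun h => hcon (by rw [h])

theorem admissible_iff (j : Ei ≃+* 𝓞 K) (hj : ∀ z : Ei, Algebra.norm ℤ (j z) = nr z)
    (hdt : Dt π (fun _ => 1)) (S : Finset Ei) :
    Admissible (j (pD π (fun _ => 1))) (S.image j) ↔ ∃ j₀ : Ei → Fin (n + 1), Leaf π j₀ S := by
  have hpw : ∀ l m : Ei, Pq l → Pq m → m ≠ l → (IsCubeMod (j m) (j l) ↔ cs l m = 0) :=
    fun l m hl hm hne => isCubeMod_iff j hl fun hd => hne (pq_dvd hl hm hd).symm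
  constructor
  · rintro ⟨h1, h2⟩
    have h3 := fun l (hl : l ∈ S) => (attached_iff j hj hdt l).1 (h1 _ (Finset.mem_image_of_mem j hl))
    have h4 : ∀ l : Ei, ∃ i, l ∈ S → cs l (π i) ≠ 0 ∧ ∀ k, k ≠ i → cs l (π k) = 0 := by
      intro l
      by_cases hl : l ∈ S
      · obtain ⟨i, hi⟩ := (h3 l hl).2.2.2
        exact ⟨i, fun _ => hi⟩
      · exact ⟨0, fun h => absurd h hl⟩
    choose j₀ hj₀ using h4
    refine ⟨j₀, fun l hl => (h3 l hl).1, fun l hl => (h3 l hl).2.2.1, fun l hl => (h3 l hl).2.1,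
      fun l hl => (hj₀ l hl).1, fun l hl => (hj₀ l hl).2, fun l hl m hm hlm => ?_⟩
    rw [← hpw l m (h3 l hl).1 (h3 m hm).1 hlm.symm]
    exact h2 _ (Finset.mem_image_of_mem j hl) _ (Finset.mem_image_of_mem j hm)
      fun h => hlm (j.injective h).symm
  · rintro ⟨j₀, hL⟩
    constructor
    · intro l hl
      obtain ⟨l', hl', rfl⟩ := Finset.mem_image.1 hl
      exact (attached_iff j hj hdt l').2 ⟨hL.pq l' hl', hL.nine l' hl', hL.ne l' hl', j₀ l',
        hL.at0 l' hl', hL.off l' hl'⟩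
    · intro l hl m hm hlm
      obtain ⟨l', hl', rfl⟩ := Finset.mem_image.1 hl
      obtain ⟨m', hm', rfl⟩ := Finset.mem_image.1 hm
      have hne : m' ≠ l' := fun h => hlm (by rw [h])
      rw [hpw l' m' (hL.pq l' hl') (hL.pq m' hm') hne]
      exact hL.pw l' hl' m' hm' hne.symm

/-- There is a field generated by the cube roots. -/
theorem exists_generated (S : Finset (𝓞 K)) :
    ∃ (F : Type) (_ : Field F) (_ : NumberField F) (_ : Algebra K F), Generated S F := by
  let p : Polynomial K := ∏ l ∈ S, (Polynomial.X ^ 3 - Polynomial.C (l : K))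
  let F : Type := p.SplittingField
  have : NumberField F := NumberField.of_module_finite K F
  have hp0 : p ≠ 0 := Finset.prod_ne_zero_iff.2 fun l _ =>
    Polynomial.X_pow_sub_C_ne_zero (by norm_num) _
  have hsp : (p.map (algebraMap K F)).Splits := Polynomial.SplittingField.splits p
  have hp0' : p.map (algebraMap K F) ≠ 0 :=
    (Polynomial.map_ne_zero_iff (algebraMap K F).injective).2 hp0
  have hroot : ∀ l : 𝓞 K, ∃ x : F, l ∈ S → x ^ 3 = algebraMap K F (l : K) := by
    intro l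
    by_cases hl : l ∈ S
    · have h1 : ((Polynomial.X ^ 3 - Polynomial.C (l : K)).map (algebraMap K F)).Splits :=
        hsp.of_dvd hp0' (Polynomial.map_dvd _ (Finset.dvd_prod_of_mem _ hl))
      obtain ⟨x, hx⟩ := h1.exists_eval_eq_zero (by
        rw [Polynomial.degree_map, Polynomial.degree_X_pow_sub_C (by norm_num)]
        norm_num)
      refine ⟨x, fun _ => ?_⟩
      simp at hx
      linear_combination hx
    · exact ⟨0, fun h => absurd h hl⟩
  choose r hr using hroot
  let M : IntermediateField K F := IntermediateField.adjoin K (r '' S)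
  have hMn : NumberField M := NumberField.of_module_finite K M
  have hrM : ∀ l ∈ S, r l ∈ M := fun l hl =>
    IntermediateField.subset_adjoin K _ ⟨l, hl, rfl⟩
  refine ⟨M, inferInstance, hMn, inferInstance, fun l => if h : l ∈ S then ⟨r l, hrM l h⟩ else 0,
    fun l hl => ?_, fun L hL1 hL2 => ?_⟩
  · simp only [dif_pos hl]
    apply Subtype.ext
    exact hr l hl
  · rw [eq_top_iff]
    intro y _
    let L' : IntermediateField K F :=
      { (L.map (algebraMap M F)) with
        algebraMap_mem' := fun k => ⟨algebraMap K M k, hL1 k, rfl⟩ }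
    have h1 : M ≤ L' := by
      apply IntermediateField.adjoin_le_iff.2
      rintro _ ⟨l, hl, rfl⟩
      have h2 := hL2 l hl
      simp only [dif_pos (Finset.mem_coe.1 hl)] at h2
      exact ⟨_, h2, rfl⟩
    obtain ⟨y', hy', h2⟩ := h1 y.2
    have h3 : y' = y := Subtype.ext h2
    rw [← h3]
    exact hy'

theorem towers_iff (K : Type) [Field K] [NumberField K] [IsCyclotomicExtension {3} ℚ K]
    {D : 𝓞 K} (hD : ClsK D) : Towers D ↔ Tri D := by
  obtain ⟨⟨j, hj⟩, -⟩ := Pool.Agent.Y455.CTK.jex K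
  obtain ⟨z, rfl⟩ := j.surjective D
  have hcls : ClsE z := by
    obtain ⟨h1, h2, h3⟩ := hD
    refine ⟨(three_iff j z).1 h1, ?_, by rw [← hj]; exact h3⟩
    intro x hx
    have h4 := h2 (j x) (by rw [← map_mul]; exact map_dvd j hx)
    exact (MulEquiv.isUnit_map j).1 h4
  obtain ⟨n, π, hdt, rfl, -⟩ := Pool.Agent.Y696.CTK.ge2 z hcls
  have htri := Pool.Agent.Y696.CTK.tri_iff j Pool.Agent.Y696.CTK.parts hdt hcls.2.2
  constructor
  · intro h
    obtain ⟨-, -, h1⟩ := h ∅ ⟨by simp, by simp⟩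
    obtain ⟨-, h2, h3⟩ := h1 K ⟨fun _ => 0, by simp, fun L hL _ => by
      rw [eq_top_iff]
      intro y _
      exact hL y⟩
    refine ⟨h2, fun m x hx => ?_⟩
    have h4 := h3 m x hx
    rwa [Finset.card_empty, pow_zero, one_smul] at h4
  · intro h
    have hk := htri.1 h
    have hinj : Function.Injective π := by
      intro a b hab
      by_contra hne
      exact hdt.nd a b hne (by rw [hab])
    intro S hS
    obtain ⟨S', rfl⟩ : ∃ S' : Finset Ei, S = S'.image j := by
      refine ⟨S.image j.symm, ?_⟩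
      rw [Finset.image_image]
      ext x
      simp
    obtain ⟨j₀, hL⟩ := (admissible_iff j hj hdt S').1 hS
    refine ⟨?_, exists_generated _, fun F _ _ _ hF => ?_⟩
    · have h1 := more_leaves hdt.pq hinj hL 0
      refine (h1.image j.injective.injOn).mono ?_
      rintro _ ⟨l, ⟨hl1, hl2⟩, rfl⟩
      refine ⟨fun h => hl1 ?_, ?_⟩
      · obtain ⟨l', hl', h2⟩ := Finset.mem_image.1 h
        rw [← j.injective h2]
        exact hl'
      · rw [← Finset.image_insert]
        refine (admissible_iff j hj hdt _).2 ⟨Function.update j₀ l 0, hl2 _ (fun x hx => ?_) ?_⟩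
        · rw [Function.update_of_ne fun h => hl1 (by rw [← h]; exact hx)]
        · rw [Function.update_self]
    · obtain ⟨r, hr1, hr2⟩ := hF
      have h1 := tower j hdt hk hcls.2.2 hL (F := F) (fun l => r (j l))
        (fun l hl => hr1 _ (Finset.mem_image_of_mem j hl)) (fun L h2 h3 => hr2 L h2 fun l hl => by
          obtain ⟨l', hl', rfl⟩ := Finset.mem_image.1 hl
          exact h3 l' hl')
      rw [Finset.card_image_of_injective _ j.injective]
      exact h1

end proof

/-- **Main theorem.**  `K` is the field of the third roots of unity.  There are at least `c X` elements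
`D` of norm at most `X` in the class.  The proportion of those for which the property `Towers` holds
(for every admissible `S` and `F = K(∛l : l ∈ S)`: `[F : K] = 3 ^ #S`, `E_D(F)` is finite, and the
`3`-primary part of `Ш(E_D / F)` is killed by `[F : K]`) tends to `∏_{i ≥ 0} (1 - 3^{-(2 i + 1)})`,
which is `0.639...`. -/
theorem result (K : Type) [Field K] [NumberField K] [IsCyclotomicExtension {3} ℚ K] :
    (∃ c : ℝ, 0 < c ∧ ∃ X₀ : ℕ, ∀ X : ℕ, X₀ ≤ X →
      c * X ≤ ({D : 𝓞 K | Algebra.norm ℤ D ≤ X ∧ InClass D}.ncard : ℝ)) ∧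
    Filter.Tendsto (fun X : ℕ =>
      ({D : 𝓞 K | Algebra.norm ℤ D ≤ X ∧ InClass D ∧ Towers D}.ncard : ℝ) /
        ({D : 𝓞 K | Algebra.norm ℤ D ≤ X ∧ InClass D}.ncard : ℝ)) Filter.atTop
      (nhds (∏' i : ℕ, (1 - (1 / 3 : ℝ) ^ (2 * i + 1)))) ∧
    (0.639 : ℝ) < ∏' i : ℕ, (1 - (1 / 3 : ℝ) ^ (2 * i + 1)) ∧
    ∏' i : ℕ, (1 - (1 / 3 : ℝ) ^ (2 * i + 1)) < 0.6391 := by
  obtain ⟨h1, -, h2, h3, h4⟩ := Pool.Agent.XL6.finalTP K
  refine ⟨h1, ?_, h3, h4⟩
  refine h2.congr fun X => ?_
  have h5 : {D : 𝓞 K | Algebra.norm ℤ D ≤ X ∧ Pool.Agent.Y696.CTK.ClsK D ∧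
      Pool.Agent.Y696.CTK.Tri D} = {D : 𝓞 K | Algebra.norm ℤ D ≤ X ∧ InClass D ∧ Towers D} := by
    ext D
    constructor
    · rintro ⟨a, b, c⟩
      exact ⟨a, b, (towers_iff K b).2 c⟩
    · rintro ⟨a, b, c⟩
      exact ⟨a, b, (towers_iff K b).1 c⟩
  rw [h5]
  rfl

end Pool.Agent.Results.MP_e996df_nt.CubicTowersSha
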